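import Mathlib
import Pool.Agent.W522.U.C2

/-!
# Project AZ, part DEC: finitely many strongly irreducible subspaces with projections
-/

set_option autoImplicit false

namespace Pool.Agent.Y606.AZ.Dec

open Module Pool.Agent.H204R3.GP Pool.Agent.W522.U

variable {K X Γ : Type} [Field K] [AddCommGroup X] [Module K X] [Group Γ]

/-- a strongly irreducible subspace with a potentially equivariant projection -/
def Good (R : Representation K Γ X) (U : Submodule K X) (p : Module.End K X) : Prop :=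
  SI R U ∧ (∀ v, p v ∈ U) ∧ (∀ u ∈ U, p u = u) ∧
    ∃ Δ : Subgroup Γ, Δ.FiniteIndex ∧ ∀ g ∈ Δ, ∀ v, p (R g v) = R g (p v)

theorem step [FiniteDimensional K X] {R : Representation K Γ X} (hss : HasProj R) (n : ℕ) :
    ∀ (ι : Type) [Fintype ι] (U : ι → Submodule K X) (p : ι → Module.End K X),
      (∀ i, Good R (U i) (p i)) → (⨆ i, U i = ⊤) →
      finrank K (⨅ i, LinearMap.ker (p i) : Submodule K X) = n →
      ∃ (ι' : Type) (_ : Fintype ι') (U' : ι' → Submodule K X) (p' : ι' → Module.End K X),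
        (∀ i, Good R (U' i) (p' i)) ∧ (⨆ i, U' i = ⊤) ∧ ∀ v, (∀ i, p' i v = 0) → v = 0 := by
  induction n using Nat.strong_induction_on with
  | _ n ih =>
    intro ι _ U p hp hsup hn
    obtain ⟨M, hM⟩ : ∃ M : Submodule K X, M = ⨅ i, LinearMap.ker (p i) := ⟨_, rfl⟩
    have hmem : ∀ v, v ∈ M ↔ ∀ i, p i v = 0 := by
      intro v
      rw [hM, Submodule.mem_iInf]
      rfl
    by_cases h0 : M = ⊥
    · refine ⟨ι, inferInstance, U, p, hp, hsup, fun v hv => ?_⟩
      have h1 : v ∈ M := (hmem v).2 hv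
      rwa [h0, Submodule.mem_bot] at h1
    · have hΔ : ∀ i, ∃ Δ : Subgroup Γ, Δ.FiniteIndex ∧ ∀ g ∈ Δ, ∀ v, p i (R g v) = R g (p i v) :=
        fun i => (hp i).2.2.2
      choose D hDf hD using hΔ
      have hfi : (⨅ i, D i).FiniteIndex := Subgroup.finiteIndex_iInf hDf
      have hst : ∀ g ∈ (⨅ i, D i), ∀ u ∈ M, R g u ∈ M := by
        intro g hg u hu
        rw [hmem] at hu ⊢
        intro i
        rw [hD i g (Subgroup.mem_iInf.1 hg i), hu i, map_zero]
      obtain ⟨W, hW, hWS⟩ := exists_SI (R := R) _ M rfl h0 ⟨_, hfi, hst⟩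
      obtain ⟨π, hπ1, hπ2, hπ3⟩ := hss _ hfi M hst
      obtain ⟨Δ', hΔ', hΔW⟩ := hWS.2.1
      obtain ⟨q, hq1, hq2, hq3⟩ := hss Δ' hΔ' W hΔW
      have hgood : Good R W (q * π) := by
        refine ⟨hWS, fun v => hq1 _, fun u hu => ?_, (⨅ i, D i) ⊓ Δ', inferInstance,
          fun g hg v => ?_⟩
        · show q (π u) = u
          rw [hπ2 u (hW hu), hq2 u hu]
        · show q (π (R g v)) = R g (q (π v))
          rw [hπ3 g hg.1, hq3 g hg.2]
      let U' : Option ι → Submodule K X := fun o => o.elim W U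
      let p' : Option ι → Module.End K X := fun o => o.elim (q * π) p
      have hp' : ∀ o, Good R (U' o) (p' o) := by
        intro o
        cases o with
        | none => exact hgood
        | some i => exact hp i
      have hsup' : ⨆ o, U' o = ⊤ := by
        rw [eq_top_iff, ← hsup]
        exact iSup_le fun i => le_iSup U' (some i)
      have hlt : finrank K (⨅ o, LinearMap.ker (p' o) : Submodule K X) < n := by
        rw [← hn, ← hM]
        refine Submodule.finrank_lt_finrank_of_lt (lt_of_le_of_ne ?_ ?_)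
        · intro v hv
          rw [Submodule.mem_iInf] at hv
          rw [hmem]
          exact fun i => hv (some i)
        · intro heq
          obtain ⟨u, hu, hu0⟩ := Submodule.exists_mem_ne_zero_of_ne_bot hWS.1
          have h1 : u ∈ (⨅ o, LinearMap.ker (p' o) : Submodule K X) := by
            rw [heq]
            exact hW hu
          rw [Submodule.mem_iInf] at h1
          have h2 : q (π u) = 0 := h1 none
          rw [hπ2 u (hW hu), hq2 u hu] at h2
          exact hu0 h2
      exact ih _ hlt (Option ι) U' p' hp' hsup' rfl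

theorem t_dec {K X Γ : Type} [Field K] [CharZero K] [AddCommGroup X] [Module K X]
    [FiniteDimensional K X] [Group Γ]
    (R : Representation K Γ X) (hss : Pool.Agent.H204R3.GP.HasProj R) :
    ∃ (ι : Type) (_ : Fintype ι) (U : ι → Submodule K X) (p : ι → Module.End K X),
      (∀ i, Pool.Agent.W522.U.SI R (U i)) ∧ (∀ i v, p i v ∈ U i) ∧ (∀ i, ∀ u ∈ U i, p i u = u) ∧
      (∀ i, ∃ Δ : Subgroup Γ, Δ.FiniteIndex ∧ ∀ g ∈ Δ, ∀ v, p i (R g v) = R g (p i v)) ∧
      (⨆ i, U i = ⊤) ∧ ∀ v, (∀ i, p i v = 0) → v = 0 := by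
  classical
  have h1 : IsCompactElement (⊤ : Submodule K X) :=
    (Submodule.fg_iff_compact _).1 (Module.Finite.fg_top)
  rw [CompleteLattice.isCompactElement_iff_exists_le_sSup_of_le_sSup] at h1
  obtain ⟨t, ht, htop⟩ := h1 {U | SI R U} (by rw [sup_SI hss])
  have hg : ∀ i : {U // U ∈ t}, ∃ p : Module.End K X, Good R i.1 p := by
    intro i
    have hU : SI R i.1 := ht i.2
    obtain ⟨Δ, hΔ, hΔU⟩ := hU.2.1
    obtain ⟨P, h1, h2, h3⟩ := hss Δ hΔ _ hΔU
    exact ⟨P, hU, h1, h2, Δ, hΔ, h3⟩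
  choose p hp using hg
  obtain ⟨ι', inst, U', p', h1, h2, h3⟩ := step hss _ {U // U ∈ t} (fun i => i.1) p hp (by
    rw [eq_top_iff]
    exact htop.trans (Finset.sup_le fun V hV =>
      le_iSup (fun i : {U // U ∈ t} => i.1) ⟨V, hV⟩)) rfl
  exact ⟨ι', inst, U', p', fun i => (h1 i).1, fun i => (h1 i).2.1, fun i => (h1 i).2.2.1,
    fun i => (h1 i).2.2.2, h2, h3⟩

end Pool.Agent.Y606.AZ.Dec
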